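import Mathlib
import Pool.Agent.Lib.MP_843e59_an.Asm

set_option autoImplicit false
open Filter Topology
open scoped ENNReal

namespace Pool.Agent.Results.MP_843e59_an.ComplementedLp

/-- A complex Banach space with a strongly series summable biorthogonal system which contains
uniformly complemented copies of the spaces `ℓ_p^n` has a triangular T-basis. -/
theorem result (E : Type) [NormedAddCommGroup E] [NormedSpace ℂ E] [CompleteSpace E]
    (x : ℕ → E) (f : ℕ → E →L[ℂ] ℂ)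
    (hbi : ∀ i j : ℕ, f i (x j) = if i = j then (1 : ℂ) else 0) (l : ℕ → ℕ → ℂ)
    (hl : ∀ y : E,
      Tendsto (fun n : ℕ => ∑ i ∈ Finset.range (n + 1), l n i • f i y • x i) atTop (𝓝 y))
    (hC : ∃ C : ℝ, ∀ n : ℕ, ∃ (p : ℝ≥0∞) (_ : Fact (1 ≤ p))
      (A : PiLp p (fun _ : Fin n => ℂ) →L[ℂ] E) (B : E →L[ℂ] PiLp p (fun _ : Fin n => ℂ)),
      B.comp A = ContinuousLinearMap.id ℂ _ ∧ ‖A‖ ≤ C ∧ ‖B‖ ≤ C) :
    ∃ (x' : ℕ → E) (f' : ℕ → E →L[ℂ] ℂ) (t : ℕ → ℕ → ℂ),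
      (∀ i j : ℕ, f' i (x' j) = if i = j then (1 : ℂ) else 0) ∧
      (∀ n m : ℕ, n < m → t n m = 0) ∧
      (∃ C : ℝ, ∀ n : ℕ, ∑ m ∈ Finset.range (n + 1), ‖t n m‖ ≤ C) ∧
      (∀ m : ℕ, Tendsto (fun n : ℕ => t n m) atTop (𝓝 0)) ∧
      Tendsto (fun n : ℕ => ∑ m ∈ Finset.range (n + 1), t n m) atTop (𝓝 1) ∧
      ∀ y : E, Tendsto (fun n : ℕ => ∑ m ∈ Finset.range (n + 1),
          t n m • ∑ i ∈ Finset.range (m + 1), f' i y • x' i) atTop (𝓝 y) := by
  obtain ⟨C, hC⟩ := hC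
  obtain ⟨y, g, m, h1, h2⟩ := Pool.Agent.Lib.MP_843e59_an.real_system (x := x) (f := f) hbi
    (l := l) (by simpa only [Pool.Agent.Lib.MP_843e59_an.mu_apply] using hl) hC
  obtain ⟨π, t, a1, ⟨K, a2⟩, a3, a4, a5⟩ := Pool.Agent.Lib.MP_843e59_an.main ℂ E y g h1 m
    (fun u => by
      have := h2 u
      simp only [Pool.Agent.Lib.MP_843e59_an.mu_apply] at this
      exact this)
  refine ⟨fun i => y (π i), fun i => g (π i), fun n m => (t n m : ℂ), fun i j => ?_,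
    fun n m h => by simp [a1 n m h], ⟨K, fun n => by simpa using a2 n⟩, fun m => ?_, ?_, a5⟩
  · simp only [h1 _ _, π.apply_eq_iff_eq]
  · simpa [Function.comp_def] using (Complex.continuous_ofReal.tendsto _).comp (a3 m)
  · simpa [Function.comp_def] using (Complex.continuous_ofReal.tendsto _).comp a4

end Pool.Agent.Results.MP_843e59_an.ComplementedLp
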