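import Mathlib
import Pool.Agent.Lib.MP_843e59_an.Main

set_option autoImplicit false
open Filter Topology

namespace Pool.Agent.Results.MP_843e59_an.RealMatrix

/-- A biorthogonal system in a real or complex Banach space that is strongly series summable by a
triangular matrix with real entries has a rearrangement that is a triangular T-basis. -/
theorem result (𝕜 : Type) [RCLike 𝕜] (E : Type) [NormedAddCommGroup E] [NormedSpace 𝕜 E]
    [CompleteSpace E] (x : ℕ → E) (f : ℕ → E →L[𝕜] 𝕜)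
    (hbi : ∀ i j : ℕ, f i (x j) = if i = j then (1 : 𝕜) else 0)
    (l : ℕ → ℕ → 𝕜) (hreal : ∀ n i, RCLike.im (l n i) = 0)
    (hl : ∀ y : E,
      Tendsto (fun n : ℕ => ∑ i ∈ Finset.range (n + 1), l n i • f i y • x i) atTop (𝓝 y)) :
    ∃ (π : Equiv.Perm ℕ) (t : ℕ → ℕ → 𝕜),
      (∀ n m : ℕ, n < m → t n m = 0) ∧
      (∃ C : ℝ, ∀ n : ℕ, ∑ m ∈ Finset.range (n + 1), ‖t n m‖ ≤ C) ∧
      (∀ m : ℕ, Tendsto (fun n : ℕ => t n m) atTop (𝓝 0)) ∧
      Tendsto (fun n : ℕ => ∑ m ∈ Finset.range (n + 1), t n m) atTop (𝓝 1) ∧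
      ∀ y : E, Tendsto (fun n : ℕ => ∑ m ∈ Finset.range (n + 1),
          t n m • ∑ i ∈ Finset.range (m + 1), f (π i) y • x (π i)) atTop (𝓝 y) := by
  have e : ∀ n i, ((RCLike.re (l n i) : ℝ) : 𝕜) = l n i := fun n i => by
    apply RCLike.ext <;> simp [hreal]
  obtain ⟨π, t, h1, ⟨C, h2⟩, h3, h4, h5⟩ := Pool.Agent.Lib.MP_843e59_an.main 𝕜 E x f hbi
    (fun n i => RCLike.re (l n i)) (by simpa only [e] using hl)
  refine ⟨π, fun n m => (t n m : 𝕜), fun n m h => by simp [h1 n m h],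
    ⟨C, fun n => by simpa using h2 n⟩, fun m => ?_, ?_, h5⟩
  · simpa [Function.comp_def] using (RCLike.continuous_ofReal (K := 𝕜).tendsto _).comp (h3 m)
  · simpa [Function.comp_def] using (RCLike.continuous_ofReal (K := 𝕜).tendsto _).comp h4

end Pool.Agent.Results.MP_843e59_an.RealMatrix
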